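import Mathlib

namespace Pool.Agent.Results.MP_6f70ff_gt.Line

open Set Filter Topology SimpleGraph

variable {V W : Type}

/-- `N` is a `k`-net: maximal among the `k`-separated vertex sets. -/
def IsNet (G : SimpleGraph V) (k : ℕ) (N : Set V) : Prop :=
  Maximal (fun S : Set V => ∀ u ∈ S, ∀ v ∈ S, u ≠ v → k ≤ G.dist u v) N

/-- The `k`-net graph on `N`. -/
def netGraph (G : SimpleGraph V) (k : ℕ) (N : Set V) : SimpleGraph N where
  Adj u v := 0 < G.dist u v ∧ G.dist u v ≤ 2 * k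
  symm := ⟨fun _ _ h => by rwa [dist_comm]⟩
  loopless := ⟨fun _ h => by simp at h⟩

/-- `C`-rough isometry for the graph metrics. -/
def Rough (G : SimpleGraph V) (H : SimpleGraph W) (C : ℝ) (f : V → W) : Prop :=
  (∀ x y, C⁻¹ * H.dist (f x) (f y) - C ≤ G.dist x y ∧ (G.dist x y : ℝ) ≤ C * H.dist (f x) (f y) + C) ∧
    ∀ w, ∃ x, (H.dist (f x) w : ℝ) < C

/-- Sub scale invariance: for every choice of nets the net graphs are connected, the sets whose
infima define `C_k` are nonempty, and `C_k → 1`. -/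
def SubScale (G : SimpleGraph V) : Prop :=
  ∀ N : ℕ → Set V, (∀ k, 1 ≤ k → IsNet G k (N k)) →
    (∀ k, 1 ≤ k → (netGraph G k (N k)).Connected ∧
      {C | 0 < C ∧ ∃ f, Rough G (netGraph G k (N k)) C f}.Nonempty) ∧
    Tendsto (fun k => sInf {C | 0 < C ∧ ∃ f, Rough G (netGraph G k (N k)) C f}) atTop (𝓝 1)

def L : SimpleGraph ℤ := fromRel fun a b => b = a + 1

lemma chain {H : SimpleGraph V} (f : ℤ → V) (h : ∀ i, H.Adj (f i) (f (i + 1))) (i : ℤ) (n : ℕ) :
    ∃ p : H.Walk (f i) (f (i + n)), p.length = n := by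
  induction n with
  | zero => exact ⟨Walk.nil.copy rfl (by simp), by simp⟩
  | succ n ih =>
    obtain ⟨p, hp⟩ := ih
    exact ⟨(p.concat (h _)).copy rfl (by simp [add_assoc]), by simp [hp]⟩

lemma chain' {H : SimpleGraph V} (f : ℤ → V) (h : ∀ i, H.Adj (f i) (f (i + 1))) (i j : ℤ) :
    H.Reachable (f i) (f j) ∧ (H.dist (f i) (f j) : ℤ) ≤ |i - j| := by
  wlog hij : i ≤ j generalizing i j
  · rw [dist_comm, abs_sub_comm]; exact (this j i (by omega)).imp_left Reachable.symm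
  obtain ⟨n, rfl⟩ := Int.le.dest hij
  obtain ⟨p, hp⟩ := chain f h i n
  exact ⟨⟨p⟩, by simpa [hp] using dist_le p⟩

lemma L_adj (i : ℤ) : L.Adj i (i + 1) := ⟨by omega, Or.inl rfl⟩

lemma L_dist (a b : ℤ) : (L.dist a b : ℤ) = |a - b| := by
  refine le_antisymm (chain' id L_adj a b).2 ?_
  obtain ⟨p, hp⟩ := (chain' id L_adj a b).1.exists_walk_length_eq_dist
  rw [← show p.length = L.dist a b from hp]
  simp only [id] at p
  clear hp
  induction p with
  | nil => simp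
  | cons h p ih =>
    rw [Walk.length_cons, abs_le] at *
    rcases h.2 with h | h <;> push_cast <;> omega

lemma main (k : ℕ) (hk : 1 ≤ k) (N : Set ℤ) (hN : IsNet L k N) : (netGraph L k N).Connected ∧
    ∃ f : ℤ → N, (∀ i j, ((netGraph L k N).dist (f i) (f j) : ℤ) ≤ |i - j| ∧
      |i - j| ≤ (netGraph L k N).dist (f i) (f j) + 1) ∧ ∀ w, ∃ i, (netGraph L k N).dist (f i) w ≤ 1 := by
  have near : ∀ a : ℤ, ∃ n ∈ N, |a - n| < k := fun a => by
    by_contra hn
    push Not at hn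
    have := hN.2 (y := insert a N) (by
      rintro u (rfl | hu) v (rfl | hv) h
      · exact absurd rfl h
      · exact_mod_cast (hn v hv).trans (L_dist _ _).ge
      · exact_mod_cast (hn u hu).trans ((abs_sub_comm _ _).le.trans (L_dist _ _).ge)
      · exact hN.1 u hu v hv h) (subset_insert _ _) (mem_insert _ _)
    have := hn a this
    simp at this; omega
  have up : ∀ a : N, ∃ b : N, (a : ℤ) < b ∧ (b : ℤ) ≤ a + 2 * k ∧ ∀ c : N, (c : ℤ) ≤ a + 2 * k → (c : ℤ) ≤ b :=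
    fun a => by
      obtain ⟨n, n1, n2⟩ := near (a + k)
      rw [abs_lt] at n2
      obtain ⟨b, ⟨b1, b2⟩, b3⟩ := Int.exists_greatest_of_bdd (P := fun b => b ∈ N ∧ b ≤ a + 2 * k)
        ⟨_, fun z hz => hz.2⟩ ⟨n, n1, by omega⟩
      exact ⟨⟨b, b1⟩, lt_of_lt_of_le (by omega) (b3 n ⟨n1, by omega⟩), b2, fun c hc => b3 c ⟨c.2, hc⟩⟩
  have dn : ∀ a : N, ∃ b : N, (b : ℤ) < a ∧ (a : ℤ) ≤ b + 2 * k ∧ ∀ c : N, (a : ℤ) ≤ c + 2 * k → (b : ℤ) ≤ c :=
    fun a => by
      obtain ⟨n, n1, n2⟩ := near (a - k)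
      rw [abs_lt] at n2
      obtain ⟨b, ⟨b1, b2⟩, b3⟩ := Int.exists_least_of_bdd (P := fun b => b ∈ N ∧ a ≤ b + 2 * k)
        ⟨a - 2 * k, fun z hz => by omega⟩ ⟨n, n1, by omega⟩
      exact ⟨⟨b, b1⟩, lt_of_le_of_lt (b3 n ⟨n1, by omega⟩) (by omega), b2, fun c hc => b3 c ⟨c.2, hc⟩⟩
  choose T t1 t2 t3 using up
  choose S s1 s2 s3 using dn
  obtain ⟨z, z1, -⟩ := near 0
  obtain ⟨f, f1, f2⟩ : ∃ f : ℤ → N, (∀ i, 0 ≤ i → f (i + 1) = T (f i)) ∧ ∀ i < 0, f i = S (f (i + 1)) := by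
    refine ⟨fun i => match i with | (n : ℕ) => T^[n] ⟨z, z1⟩ | .negSucc n => S^[n + 1] ⟨z, z1⟩, ?_, ?_⟩
    · rintro (n | n) h
      · exact Function.iterate_succ_apply' _ _ _
      · simp at h
    · rintro (n | _ | n) h
      · simp at h; omega
      · rfl
      · exact Function.iterate_succ_apply' _ _ _
  have g1 : ∀ i, (f i : ℤ) < f (i + 1) ∧ (f (i + 1) : ℤ) ≤ f i + 2 * k := fun i => by
    rcases le_or_gt 0 i with h | h
    · rw [f1 i h]; exact ⟨t1 _, t2 _⟩
    · rw [f2 i h]; exact ⟨s1 _, s2 _⟩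
  have fm : StrictMono fun i => (f i : ℤ) := strictMono_int_of_lt_succ fun i => (g1 i).1
  have adj : ∀ u v : N, (netGraph L k N).Adj u v ↔ (u : ℤ) ≠ v ∧ |(u : ℤ) - v| ≤ 2 * k := fun u v => by
    rw [← L_dist]
    refine and_congr ?_ (by norm_cast)
    rw [← Nat.cast_pos (α := ℤ), L_dist, abs_pos, sub_ne_zero]
  have ch := chain' (H := netGraph L k N) f fun i => (adj _ _).2 ⟨(g1 i).1.ne, by
    have := g1 i; rw [abs_le]; omega⟩
  have den : ∀ w : N, ∃ i, f i = w ∨ (netGraph L k N).Adj (f i) w := fun w => by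
    have a1 : ∀ n : ℕ, ∀ i, (f i : ℤ) + n ≤ f (i + n) := fun n i => by
      induction n with
      | zero => simp
      | succ n ih => have := (g1 (i + n)).1; push_cast; rw [← add_assoc i]; omega
    obtain ⟨i, i1, i2⟩ := Int.exists_greatest_of_bdd (P := fun i => (f i : ℤ) ≤ w)
      ⟨(w - f 0 : ℤ).natAbs, fun i hi => fm.le_iff_le.1 (by
        have := a1 (w - f 0 : ℤ).natAbs 0; simp only [zero_add] at this ⊢; omega)⟩
      ⟨-(w - f 0 : ℤ).natAbs, by
        have := a1 (w - f 0 : ℤ).natAbs (-(w - f 0 : ℤ).natAbs); rw [neg_add_cancel] at this; omega⟩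
    have := mt (i2 (i + 1)) (by omega)
    have h := g1 i
    refine ⟨i, (eq_or_ne (f i : ℤ) w).imp Subtype.ext fun h => (adj _ _).2 ⟨h, ?_⟩⟩
    rw [abs_le]; omega
  have wk : ∀ (u v : N) (p : (netGraph L k N).Walk u v) (i : ℤ), (u : ℤ) < f i + (if i ≤ 0 then 0 else 1) →
      (v : ℤ) ≤ f (i + p.length) := fun u v p => by
    induction p with
    | nil => intro i h; simp only [Walk.length_nil, Nat.cast_zero, add_zero]; split_ifs at h <;> omega
    | @cons u w v a p ih =>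
      intro i h
      rw [Walk.length_cons, Nat.cast_succ, add_comm _ (1 : ℤ), ← add_assoc]
      refine ih _ ?_
      have a := ((adj _ _).1 a).2
      rw [abs_le] at a
      rcases le_or_gt 0 i with h1 | h1
      · have := t3 (f i) w (by split_ifs at h <;> omega)
        rw [f1 i h1, if_neg (by omega)]; omega
      · have := mt (s3 (f (i + 1)) u) (by rw [← f2 i h1]; rw [if_pos h1.le] at h; omega)
        rw [if_pos (by omega)]; omega
  refine ⟨?_, f, fun i j => ⟨(ch i j).2, ?_⟩, fun w => (den w).imp fun i h => ?_⟩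
  · have : Nonempty N := ⟨f 0⟩
    refine ⟨fun u v => ?_⟩
    obtain ⟨i, hi⟩ := den u
    obtain ⟨j, hj⟩ := den v
    exact ((hi.elim (· ▸ .rfl) Adj.reachable).symm.trans (ch i j).1).trans (hj.elim (· ▸ .rfl) Adj.reachable)
  · obtain ⟨p, hp⟩ := (ch i j).1.exists_walk_length_eq_dist
    have h1 := fm.le_iff_le.1 (wk _ _ p (i + 1) (by have := g1 i; split_ifs <;> omega))
    have h2 := fm.le_iff_le.1 (wk _ _ p.reverse (j + 1) (by have := g1 j; split_ifs <;> omega))
    rw [Walk.length_reverse] at h2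
    rw [← hp, abs_le]; omega
  · rcases h with rfl | h
    · simp
    · exact (dist_eq_one_iff_adj.2 h).le

theorem result : ∃ (V : Type) (G : SimpleGraph V), Infinite V ∧ G.Connected ∧
    (∀ v, (G.neighborSet v).Finite) ∧ (∀ u v, ∃ e : G ≃g G, e u = v) ∧ SubScale G := by
  refine ⟨ℤ, L, inferInstance, ⟨fun a b => (chain' id L_adj a b).1⟩,
    fun v => (toFinite {v + 1, v - 1}).subset fun w h => ?_,
    fun u v => ⟨⟨Equiv.addRight (v - u), ?_⟩, add_sub_cancel u v⟩, fun N hN => ?_⟩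
  · exact h.2.imp id fun h => show w = v - 1 by omega
  · intro a b; simp [L]; omega
  have key : ∀ k, 1 ≤ k → ∀ C, 1 < C → ∃ f, Rough L (netGraph L k (N k)) C f := fun k hk C hC => by
    obtain ⟨-, f, f1, f2⟩ := main k hk _ (hN k hk)
    refine ⟨f, fun x y => ?_, fun w => (f2 w).imp fun i h => lt_of_le_of_lt (by exact_mod_cast h) hC⟩
    obtain ⟨a, b⟩ := f1 x y
    rw [← L_dist] at a b
    have a : ((netGraph L k (N k)).dist (f x) (f y) : ℝ) ≤ L.dist x y := by exact_mod_cast a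
    have b : (L.dist x y : ℝ) ≤ (netGraph L k (N k)).dist (f x) (f y) + 1 := by exact_mod_cast b
    have c : (0 : ℝ) ≤ (netGraph L k (N k)).dist (f x) (f y) := Nat.cast_nonneg _
    constructor <;> nlinarith [inv_lt_one_of_one_lt₀ hC]
  refine ⟨fun k hk => ⟨(main k hk _ (hN k hk)).1, 2, two_pos, key k hk 2 one_lt_two⟩,
    tendsto_const_nhds.congr' ?_⟩
  filter_upwards [eventually_ge_atTop 1] with k hk
  refine le_antisymm (le_csInf ⟨2, two_pos, key k hk 2 one_lt_two⟩ ?_) (le_of_forall_gt_imp_ge_of_dense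
    fun C hC => csInf_le ⟨0, fun _ h => h.1.le⟩ ⟨by linarith, key k hk C hC⟩)
  rintro C ⟨c0, f, f1, -⟩
  by_contra hn
  push Not at hn
  obtain ⟨n, hn2⟩ := exists_nat_gt (2 / (1 - C))
  obtain ⟨a, b⟩ := f1 0 n
  have e : (L.dist 0 n : ℝ) = n := by
    have := L_dist 0 n
    simp at this; exact_mod_cast this
  rw [e] at a b
  rw [div_lt_iff₀ (by linarith)] at hn2
  rw [sub_le_iff_le_add, inv_mul_le_iff₀ c0] at a
  have c : (0 : ℝ) ≤ (netGraph L k (N k)).dist (f 0) (f n) := Nat.cast_nonneg _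
  nlinarith

end Pool.Agent.Results.MP_6f70ff_gt.Line
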